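import Pool.Agent.helper74.VQ.SpecC

/-!
# Project VQ (MP_07c750_an), row VFR: regularity of families of packets

After the row VQS (helper67): the same arguments with a radius `r` instead of `1`.
-/

set_option autoImplicit false

open scoped MatrixGroups ContDiff Topology UpperHalfPlane ComplexConjugate ENNReal
open UpperHalfPlane MeasureTheory Filter Set

namespace Pool.Agent.VQ

open Pool.Agent.RS

noncomputable section

/-- the fundamental domain is bounded, or everything -/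
theorem VFR_dich {Γ : Subgroup SL(2, ℝ)} {F : Set ℍ} (h : Dm Γ F) : (∃ b : ℝ, ∀ z ∈ F, dist z I ≤ b) ∨ F = univ := by
  rcases h with ⟨-, h⟩ | ⟨-, h⟩
  · left
    obtain ⟨K, hK, hFK⟩ := h.rel
    obtain ⟨b, hb⟩ := (Metric.isBounded_iff_subset_closedBall I).1 hK.isBounded
    exact ⟨b, fun z hz => Metric.mem_closedBall.1 (hb (hFK hz))⟩
  · exact Or.inr h

/-- invariant functions are bounded -/
theorem VFR_bdd {Γ : Subgroup SL(2, ℝ)} {F : Set ℍ} (hF : ∀ z : ℍ, ∃! γ : Γ, γ • z ∈ F) {φ : ℍ → ℂ} (h : FH Γ F φ) :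
    ∃ M : ℝ, 0 ≤ M ∧ ∀ z, ‖φ z‖ ≤ M := by
  obtain ⟨b, hb⟩ := h.supp
  obtain ⟨M, hM⟩ := (isCompact_closedBall I b).exists_bound_of_continuousOn h.cont.continuousOn
  refine ⟨max M 0, le_max_right _ _, fun z => ?_⟩
  obtain ⟨γ, hγ, -⟩ := hF z
  have hγ' : γ • z ∈ F := hγ
  rw [← h.inv γ z]
  by_cases h0 : φ (γ • z) = 0
  · rw [h0, norm_zero]
    exact le_max_right _ _
  · exact (hM _ (Metric.mem_closedBall.2 (hb _ hγ' h0))).trans (le_max_left _ _)

/-- the properties of the packets used below -/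
structure VFR_G (Γ : Subgroup SL(2, ℝ)) (C r : ℝ) (G : SL(2, ℝ) × ℝ → ℍ → ℂ) : Prop where
  cont : Continuous (fun x : (SL(2, ℝ) × ℝ) × ℍ => G x.1 x.2)
  bd : ∀ p z, ‖G p z‖ ≤ C
  supp : ∀ p z, G p z ≠ 0 → dist (p.1 • I : ℍ) z ≤ r
  eqv : ∀ (γ : Γ) (p : SL(2, ℝ) × ℝ) (z : ℍ), G ((γ : SL(2, ℝ)) * p.1, p.2) (γ • z) = G p z

section main
variable {Γ : Subgroup SL(2, ℝ)} {C r : ℝ} {G : SL(2, ℝ) × ℝ → ℍ → ℂ}

theorem VFR_C (hG : VFR_G Γ C r G) : 0 ≤ C := (norm_nonneg _).trans (hG.bd (1, 0) I)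

theorem VFR_Qcont (hG : VFR_G Γ C r G) {φ : ℍ → ℂ} (hφ : Continuous φ) {M : ℝ} (hM0 : 0 ≤ M) (hM : ∀ z, ‖φ z‖ ≤ M) :
    Continuous fun p => ∫ z : ℍ, φ z * conj (G p z) := by
  haveI : SecondCountableTopology SL(2, ℝ) := A_GLC.2.1
  rw [continuous_iff_continuousAt]
  intro p₀
  have hc : Continuous fun p : SL(2, ℝ) × ℝ => (p.1 • I : ℍ) := continuous_fst.smul continuous_const
  refine continuousAt_of_dominated (bound := (Metric.closedBall (p₀.1 • I : ℍ) (r + 1)).indicator fun _ => M * C) ?_ ?_ ?_ ?_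
  · refine Eventually.of_forall fun p => ?_
    have h1 : Continuous fun z : ℍ => φ z * conj (G p z) :=
      hφ.mul (Complex.continuous_conj.comp (hG.cont.comp (continuous_const.prodMk continuous_id)))
    exact h1.aestronglyMeasurable
  · have h1 : ∀ᶠ p in 𝓝 p₀, dist (p.1 • I : ℍ) (p₀.1 • I : ℍ) < 1 := (hc.tendsto p₀).eventually (Metric.ball_mem_nhds _ one_pos)
    filter_upwards [h1] with p hp
    refine Eventually.of_forall fun z => ?_
    by_cases h0 : G p z = 0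
    · rw [h0, map_zero, mul_zero, norm_zero]
      exact Set.indicator_nonneg (fun _ _ => mul_nonneg hM0 (VFR_C hG)) z
    · have h2 := hG.supp p z h0
      have h3 : z ∈ Metric.closedBall (p₀.1 • I : ℍ) (r + 1) := by
        rw [Metric.mem_closedBall]
        have h4 := dist_triangle z (p.1 • I : ℍ) (p₀.1 • I : ℍ)
        rw [dist_comm z (p.1 • I : ℍ)] at h4
        linarith
      rw [Set.indicator_of_mem h3, norm_mul, RCLike.norm_conj]
      exact mul_le_mul (hM z) (hG.bd p z) (norm_nonneg _) hM0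
  · rw [integrable_indicator_iff measurableSet_closedBall]
    exact integrableOn_const (isCompact_closedBall _ _).measure_lt_top.ne
  · refine Eventually.of_forall fun z => ?_
    have h1 : Continuous fun p : SL(2, ℝ) × ℝ => φ z * conj (G p z) :=
      continuous_const.mul (Complex.continuous_conj.comp (hG.cont.comp (continuous_id.prodMk continuous_const)))
    exact h1.continuousAt

theorem VFR_Qbd (hG : VFR_G Γ C r G) {φ : ℍ → ℂ} {M : ℝ} (hM0 : 0 ≤ M) (hM : ∀ z, ‖φ z‖ ≤ M) (p : SL(2, ℝ) × ℝ) :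
    ‖∫ z : ℍ, φ z * conj (G p z)‖ ≤ M * C * (volume : Measure ℍ).real (Metric.closedBall (I : ℍ) r) := by
  haveI : SMulInvariantMeasure SL(2, ℝ) ℍ (volume : Measure ℍ) := QU.A_INV.1
  have h1 : ∫ z in Metric.closedBall (p.1 • I : ℍ) r, φ z * conj (G p z) = ∫ z : ℍ, φ z * conj (G p z) := by
    refine setIntegral_eq_integral_of_forall_compl_eq_zero fun z hz => ?_
    by_cases h0 : G p z = 0
    · rw [h0, map_zero, mul_zero]
    · have h2 := hG.supp p z h0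
      exact absurd (Metric.mem_closedBall'.2 h2) hz
  rw [← h1]
  have h2 : (volume : Measure ℍ) (Metric.closedBall (p.1 • I : ℍ) r) = (volume : Measure ℍ) (Metric.closedBall (I : ℍ) r) := by
    rw [← Metric.smul_closedBall, measure_smul]
  have h3 : (volume : Measure ℍ).real (Metric.closedBall (p.1 • I : ℍ) r) = (volume : Measure ℍ).real (Metric.closedBall (I : ℍ) r) := by
    unfold Measure.real
    rw [h2]
  rw [← h3]
  refine norm_setIntegral_le_of_norm_le_const (isCompact_closedBall _ _).measure_lt_top fun z _ => ?_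
  rw [norm_mul, RCLike.norm_conj]
  exact mul_le_mul (hM z) (hG.bd p z) (norm_nonneg _) hM0

theorem VFR_Qinv (hG : VFR_G Γ C r G) {φ : ℍ → ℂ} (hφ : ∀ (γ : Γ) (z : ℍ), φ (γ • z) = φ z) (γ : Γ) (p : SL(2, ℝ) × ℝ) :
    ∫ z : ℍ, φ z * conj (G ((γ : SL(2, ℝ)) * p.1, p.2) z) = ∫ z : ℍ, φ z * conj (G p z) := by
  have h1 := QU.A_INV.2.2.2.1 ℂ (γ : SL(2, ℝ)) (fun z => φ z * conj (G ((γ : SL(2, ℝ)) * p.1, p.2) z))
  rw [← h1]
  refine integral_congr_ae (Eventually.of_forall fun z => ?_)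
  show φ (γ • z) * conj (G ((γ : SL(2, ℝ)) * p.1, p.2) (γ • z)) = _
  rw [hφ, hG.eqv]

theorem VFR_Q (hVDM : VDM_stmt) {F : Set ℍ} (hD : Dm Γ F) (hG : VFR_G Γ C r G) {φ : ℍ → ℂ} (hφ : FH Γ F φ) :
    Continuous (fun p => ∫ z : ℍ, φ z * conj (G p z)) ∧ FP Γ F (fun p => ∫ z : ℍ, φ z * conj (G p z)) := by
  haveI : SecondCountableTopology SL(2, ℝ) := A_GLC.2.1
  obtain ⟨-, -, hF, -, -⟩ := hVDM Γ F hD
  obtain ⟨M, hM0, hM⟩ := VFR_bdd hF hφ
  have hc := VFR_Qcont hG hφ.cont hM0 hM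
  refine ⟨hc, hc.measurable, ⟨_, VFR_Qbd hG hM0 hM⟩, VFR_Qinv hG hφ.inv, ?_⟩
  rcases VFR_dich hD with ⟨b, hb⟩ | h
  · exact ⟨b, fun p hp _ => hb _ hp⟩
  · obtain ⟨b, hb⟩ := hφ.supp
    refine ⟨b + r, fun p _ hp => ?_⟩
    have h1 : ∃ z, φ z * conj (G p z) ≠ 0 := by
      by_contra h0
      push Not at h0
      apply hp
      show ∫ z : ℍ, φ z * conj (G p z) = 0
      rw [integral_congr_ae (Eventually.of_forall h0), integral_zero]
    obtain ⟨z, hz⟩ := h1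
    have h2 := hb z (by rw [h]; trivial) (left_ne_zero_of_mul hz)
    have h3 := hG.supp p z (fun h0 => hz (by rw [h0, map_zero, mul_zero]))
    have h4 := dist_triangle (p.1 • I : ℍ) z I
    linarith

/-- the measure on the window -/
theorem VFR_fin (hVDM : VDM_stmt) {F : Set ℍ} (hD : Dm Γ F) {W : Set ℝ} (hW : MeasurableSet W) (hW1 : W ⊆ Icc (-1) 1) (z₀ : ℍ) (c : ℝ) :
    (mP.restrict (univ ×ˢ W)) {q | dist (q.1 • I : ℍ) z₀ ≤ c} < ⊤ := by
  obtain ⟨-, -, -, -, hV⟩ := hVDM Γ F hD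
  have h1 := (hV W hW).2.2.2.2.2 (c + dist z₀ I)
  have hW2 : W ∩ Icc (-1) 1 = W := inter_eq_left.2 hW1
  rw [hW2] at h1
  haveI : SecondCountableTopology SL(2, ℝ) := A_GLC.2.1
  have hc : Continuous fun p : SL(2, ℝ) × ℝ => (p.1 • I : ℍ) := continuous_fst.smul continuous_const
  have h2 : MeasurableSet {q : SL(2, ℝ) × ℝ | dist (q.1 • I : ℍ) z₀ ≤ c} := (isClosed_le (hc.dist continuous_const) continuous_const).measurableSet
  rw [Measure.restrict_apply h2]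
  refine lt_of_le_of_lt (measure_mono ?_) h1
  rintro q ⟨hq1, hq2⟩
  refine ⟨?_, hq2.2⟩
  have h3 : dist (q.1 • I : ℍ) z₀ ≤ c := hq1
  have h4 := dist_triangle (q.1 • I : ℍ) z₀ I
  show dist (q.1 • I : ℍ) I ≤ _
  linarith

theorem VFR_Scont (hVDM : VDM_stmt) {F : Set ℍ} (hD : Dm Γ F) {W : Set ℝ} (hW : MeasurableSet W) (hW1 : W ⊆ Icc (-1) 1) (hG : VFR_G Γ C r G)
    {v : SL(2, ℝ) × ℝ → ℂ} (hv : Measurable v) {b : ℝ} (hb : ∀ p, ‖v p‖ ≤ b) :
    Continuous fun z => ∫ q in univ ×ˢ W, v q * G q z ∂mP := by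
  haveI : SecondCountableTopology SL(2, ℝ) := A_GLC.2.1
  have hb0 : 0 ≤ b := (norm_nonneg _).trans (hb (1, 0))
  have hc : Continuous fun p : SL(2, ℝ) × ℝ => (p.1 • I : ℍ) := continuous_fst.smul continuous_const
  rw [continuous_iff_continuousAt]
  intro z₀
  have hms : MeasurableSet {q : SL(2, ℝ) × ℝ | dist (q.1 • I : ℍ) z₀ ≤ r + 1} := (isClosed_le (hc.dist continuous_const) continuous_const).measurableSet
  refine continuousAt_of_dominated (bound := {q : SL(2, ℝ) × ℝ | dist (q.1 • I : ℍ) z₀ ≤ r + 1}.indicator fun _ => b * C) ?_ ?_ ?_ ?_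
  · refine Eventually.of_forall fun z => ?_
    have h1 : Continuous fun q : SL(2, ℝ) × ℝ => G q z := hG.cont.comp (continuous_id.prodMk continuous_const)
    exact (hv.mul h1.measurable).aestronglyMeasurable
  · filter_upwards [Metric.ball_mem_nhds z₀ one_pos] with z hz
    refine Eventually.of_forall fun q => ?_
    by_cases h0 : G q z = 0
    · rw [h0, mul_zero, norm_zero]
      exact Set.indicator_nonneg (fun _ _ => mul_nonneg hb0 (VFR_C hG)) q
    · have h2 := hG.supp q z h0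
      have h3 : q ∈ {q : SL(2, ℝ) × ℝ | dist (q.1 • I : ℍ) z₀ ≤ r + 1} := by
        show dist (q.1 • I : ℍ) z₀ ≤ r + 1
        have h4 := dist_triangle (q.1 • I : ℍ) z z₀
        have h5 : dist z z₀ < 1 := hz
        linarith
      rw [Set.indicator_of_mem h3, norm_mul]
      exact mul_le_mul (hb q) (hG.bd q z) (norm_nonneg _) hb0
  · rw [integrable_indicator_iff hms]
    exact integrableOn_const (VFR_fin hVDM hD hW hW1 z₀ (r + 1)).ne
  · refine Eventually.of_forall fun q => ?_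
    have h1 : Continuous fun z : ℍ => v q * G q z := continuous_const.mul (hG.cont.comp (continuous_const.prodMk continuous_id))
    exact h1.continuousAt

theorem VFR_S (hVDM : VDM_stmt) {F : Set ℍ} (hD : Dm Γ F) {W : Set ℝ} (hW : MeasurableSet W) (hW1 : W ⊆ Icc (-1) 1) (hG : VFR_G Γ C r G)
    {v : SL(2, ℝ) × ℝ → ℂ} (hv : FP Γ F v) : FH Γ F (fun z => ∫ q in univ ×ˢ W, v q * G q z ∂mP) := by
  haveI : SecondCountableTopology SL(2, ℝ) := A_GLC.2.1
  obtain ⟨b, hb⟩ := hv.bdd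
  refine ⟨VFR_Scont hVDM hD hW hW1 hG hv.meas hb, fun γ z => ?_, ?_⟩
  · obtain ⟨-, -, -, -, hV⟩ := hVDM Γ F hD
    have h1 := (hV W hW).2.1 (γ : SL(2, ℝ))
    have h2 : MeasurableEmbedding (fun p : SL(2, ℝ) × ℝ => ((γ : SL(2, ℝ)) * p.1, p.2)) :=
      ((Homeomorph.mulLeft (γ : SL(2, ℝ))).prodCongr (Homeomorph.refl ℝ)).measurableEmbedding
    have h3 := h1.integral_comp h2 (fun q => v q * G q (γ • z))
    rw [← h3]
    refine integral_congr_ae (Eventually.of_forall fun q => ?_)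
    show v ((γ : SL(2, ℝ)) * q.1, q.2) * G ((γ : SL(2, ℝ)) * q.1, q.2) (γ • z) = v q * G q z
    rw [hv.inv, hG.eqv]
  · rcases VFR_dich hD with ⟨b, hb⟩ | h
    · exact ⟨b, fun z hz _ => hb _ hz⟩
    · obtain ⟨b, hb⟩ := hv.supp
      refine ⟨b + r, fun z _ hz => ?_⟩
      have h1 : ∃ q, v q * G q z ≠ 0 := by
        by_contra h0
        push Not at h0
        apply hz
        show ∫ q in univ ×ˢ W, v q * G q z ∂mP = 0
        rw [integral_congr_ae (Eventually.of_forall h0), integral_zero]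
      obtain ⟨q, hq⟩ := h1
      have h2 := hb q (by rw [h]; trivial) (left_ne_zero_of_mul hq)
      have h3 := hG.supp q z (right_ne_zero_of_mul hq)
      have h4 := dist_triangle z (q.1 • I : ℍ) I
      rw [dist_comm z (q.1 • I : ℍ)] at h4
      linarith

theorem VFR_adj (hVDM : VDM_stmt) {F : Set ℍ} (hD : Dm Γ F) {W : Set ℝ} (hW : MeasurableSet W) (hW1 : W ⊆ Icc (-1) 1) (hG : VFR_G Γ C r G)
    {φ : ℍ → ℂ} (hφ : FH Γ F φ) {v : SL(2, ℝ) × ℝ → ℂ} (hv : FP Γ F v) :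
    ∫ p in dG F ×ˢ W, (∫ z : ℍ, φ z * conj (G p z)) * conj (v p) ∂mP = ∫ z in F, φ z * conj (∫ q in univ ×ˢ W, v q * G q z ∂mP) := by
  haveI : SecondCountableTopology SL(2, ℝ) := A_GLC.2.1
  obtain ⟨hcount, hFm, hF, hpres, hV⟩ := hVDM Γ F hD
  obtain ⟨M, hM0, hM⟩ := VFR_bdd hF hφ
  obtain ⟨b, hb⟩ := hv.bdd
  obtain ⟨b', hb'⟩ := hv.supp
  have hb0 : 0 ≤ b := (norm_nonneg _).trans (hb (1, 0))
  have hC0 := VFR_C hG
  have hc : Continuous fun p : SL(2, ℝ) × ℝ => (p.1 • I : ℍ) := continuous_fst.smul continuous_const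
  obtain ⟨hσ, hl, -, hres, hdG, -⟩ := hV W hW
  haveI := hσ
  set μ : Measure (SL(2, ℝ) × ℝ) := mP.restrict (univ ×ˢ W) with hμ
  let K : (SL(2, ℝ) × ℝ) × ℍ → ℂ := fun x => φ x.2 * conj (G x.1 x.2) * conj (v x.1)
  have hK : ∀ x, K x = φ x.2 * conj (G x.1 x.2) * conj (v x.1) := fun _ => rfl
  have hKm : Measurable K := by
    have h1 : Continuous fun x : (SL(2, ℝ) × ℝ) × ℍ => φ x.2 * conj (G x.1 x.2) := (hφ.cont.comp continuous_snd).mul (Complex.continuous_conj.comp hG.cont)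
    exact h1.measurable.mul (Complex.continuous_conj.measurable.comp (hv.meas.comp measurable_fst))
  -- the two fundamental domains
  have hact : ∀ (γ : Γ) (x : (SL(2, ℝ) × ℝ) × ℍ), γ • x = (((γ : SL(2, ℝ)) * x.1.1, x.1.2), γ • x.2) := fun _ _ => rfl
  have hKi : ∀ (γ : Γ) x, K (γ • x) = K x := by
    intro γ x
    rw [hact, hK, hK]
    show φ (γ • x.2) * conj (G ((γ : SL(2, ℝ)) * x.1.1, x.1.2) (γ • x.2)) * conj (v ((γ : SL(2, ℝ)) * x.1.1, x.1.2)) = _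
    rw [hφ.inv, hG.eqv, hv.inv]
  have hpr : ∀ γ : Γ, MeasurePreserving (fun x : (SL(2, ℝ) × ℝ) × ℍ => γ • x) (μ.prod volume) (μ.prod volume) := fun γ =>
    (hl (γ : SL(2, ℝ))).prod (hpres γ)
  haveI : MeasurableConstSMul Γ ((SL(2, ℝ) × ℝ) × ℍ) := ⟨fun γ => (hpr γ).measurable⟩
  haveI : SMulInvariantMeasure Γ ((SL(2, ℝ) × ℝ) × ℍ) (μ.prod volume) := ⟨fun γ s hs => (hpr γ).measure_preimage hs.nullMeasurableSet⟩
  have hS : MeasurableSet ((dG F ×ˢ (univ : Set ℝ)) ×ˢ (univ : Set ℍ)) := (hdG.prod MeasurableSet.univ).prod MeasurableSet.univ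
  have hT : MeasurableSet ((univ : Set (SL(2, ℝ) × ℝ)) ×ˢ F) := MeasurableSet.univ.prod hFm
  have hfS : IsFundamentalDomain Γ ((dG F ×ˢ (univ : Set ℝ)) ×ˢ (univ : Set ℍ)) (μ.prod volume) := by
    refine IsFundamentalDomain.mk' hS.nullMeasurableSet fun x => ?_
    obtain ⟨γ, hγ, hu⟩ := hF (x.1.1 • I)
    have h1 : ∀ γ : Γ, γ • x ∈ (dG F ×ˢ (univ : Set ℝ)) ×ˢ (univ : Set ℍ) ↔ γ • (x.1.1 • I : ℍ) ∈ F := by
      intro γ
      rw [hact]
      constructor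
      · intro h
        have h2 : ((γ : SL(2, ℝ)) * x.1.1) • I ∈ F := h.1.1
        rw [mul_smul] at h2
        exact h2
      · intro h
        refine ⟨⟨?_, trivial⟩, trivial⟩
        show ((γ : SL(2, ℝ)) * x.1.1) • I ∈ F
        rw [mul_smul]
        exact h
    exact ⟨γ, (h1 γ).2 hγ, fun γ' hγ' => hu γ' ((h1 γ').1 hγ')⟩
  have hfT : IsFundamentalDomain Γ ((univ : Set (SL(2, ℝ) × ℝ)) ×ˢ F) (μ.prod volume) := by
    refine IsFundamentalDomain.mk' hT.nullMeasurableSet fun x => ?_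
    obtain ⟨γ, hγ, hu⟩ := hF x.2
    exact ⟨γ, ⟨trivial, hγ⟩, fun γ' hγ' => hu γ' hγ'.2⟩
  -- integrability
  have hmsA : MeasurableSet {q : SL(2, ℝ) × ℝ | dist (q.1 • I : ℍ) I ≤ b'} := (isClosed_le (hc.dist continuous_const) continuous_const).measurableSet
  have hint : IntegrableOn K ((dG F ×ˢ (univ : Set ℝ)) ×ˢ (univ : Set ℍ)) (μ.prod volume) := by
    have hms : MeasurableSet ({q : SL(2, ℝ) × ℝ | dist (q.1 • I : ℍ) I ≤ b'} ×ˢ Metric.closedBall (I : ℍ) (b' + r)) := hmsA.prod measurableSet_closedBall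
    have h1 : Integrable (({q : SL(2, ℝ) × ℝ | dist (q.1 • I : ℍ) I ≤ b'} ×ˢ Metric.closedBall (I : ℍ) (b' + r)).indicator fun _ => M * C * b)
        ((μ.prod volume).restrict ((dG F ×ˢ (univ : Set ℝ)) ×ˢ (univ : Set ℍ))) := by
      refine Integrable.mono_measure ?_ Measure.restrict_le_self
      rw [integrable_indicator_iff hms]
      refine integrableOn_const ?_
      rw [Measure.prod_prod]
      exact ENNReal.mul_ne_top (VFR_fin hVDM hD hW hW1 I b').ne (isCompact_closedBall _ _).measure_lt_top.ne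
    refine h1.mono' hKm.aestronglyMeasurable ?_
    refine (ae_restrict_iff' hS).2 (Eventually.of_forall fun x hx => ?_)
    have hx1 : (x.1.1 • I : ℍ) ∈ F := hx.1.1
    by_cases h0 : K x = 0
    · rw [h0, norm_zero]
      exact Set.indicator_nonneg (fun _ _ => mul_nonneg (mul_nonneg hM0 hC0) hb0) x
    · rw [hK] at h0
      have h2 : v x.1 ≠ 0 := fun h => h0 (by rw [h, map_zero, mul_zero])
      have h3 : G x.1 x.2 ≠ 0 := fun h => h0 (by rw [h, map_zero, mul_zero, zero_mul])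
      have h4 := hb' x.1 hx1 h2
      have h5 := hG.supp _ _ h3
      have h6 : x ∈ {q : SL(2, ℝ) × ℝ | dist (q.1 • I : ℍ) I ≤ b'} ×ˢ Metric.closedBall (I : ℍ) (b' + r) := by
        refine ⟨h4, Metric.mem_closedBall.2 ?_⟩
        have h7 := dist_triangle x.2 (x.1.1 • I : ℍ) I
        rw [dist_comm x.2 (x.1.1 • I : ℍ)] at h7
        linarith
      rw [Set.indicator_of_mem h6, hK, norm_mul, norm_mul, RCLike.norm_conj, RCLike.norm_conj]
      exact mul_le_mul (mul_le_mul (hM _) (hG.bd _ _) (norm_nonneg _) hM0) (hb _) (norm_nonneg _) (mul_nonneg hM0 hC0)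
  have hint2 : IntegrableOn K ((univ : Set (SL(2, ℝ) × ℝ)) ×ˢ F) (μ.prod volume) := (hfS.integrableOn_iff hfT hKi).1 hint
  have key := hfS.setIntegral_eq hfT hKi
  -- Fubini
  have hmS : (μ.prod (volume : Measure ℍ)).restrict ((dG F ×ˢ (univ : Set ℝ)) ×ˢ (univ : Set ℍ)) = (mP.restrict (dG F ×ˢ W)).prod volume := by
    rw [← Measure.prod_restrict, Measure.restrict_univ, hres]
  have hmT : (μ.prod (volume : Measure ℍ)).restrict ((univ : Set (SL(2, ℝ) × ℝ)) ×ˢ F) = μ.prod (volume.restrict F) := by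
    rw [← Measure.prod_restrict, Measure.restrict_univ]
  have hσ2 : SigmaFinite (mP.restrict (dG F ×ˢ W)) := by
    rw [← hres]
    infer_instance
  rw [IntegrableOn, hmS] at hint
  rw [IntegrableOn, hmT] at hint2
  rw [hmS, hmT, integral_prod _ hint, integral_prod_symm _ hint2] at key
  have e1 : ∀ p, ∫ z : ℍ, K (p, z) = (∫ z : ℍ, φ z * conj (G p z)) * conj (v p) := by
    intro p
    rw [← integral_mul_const]
  have e2 : ∀ z, ∫ q, K (q, z) ∂μ = φ z * conj (∫ q, v q * G q z ∂μ) := by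
    intro z
    rw [← integral_conj, ← integral_const_mul]
    refine integral_congr_ae (Eventually.of_forall fun q => ?_)
    show φ z * conj (G q z) * conj (v q) = φ z * conj (v q * G q z)
    rw [map_mul]
    ring
  calc ∫ p in dG F ×ˢ W, (∫ z : ℍ, φ z * conj (G p z)) * conj (v p) ∂mP = ∫ p in dG F ×ˢ W, (∫ z : ℍ, K (p, z)) ∂mP :=
        integral_congr_ae (Eventually.of_forall fun p => (e1 p).symm)
    _ = ∫ z in F, ∫ q, K (q, z) ∂μ := key
    _ = ∫ z in F, φ z * conj (∫ q, v q * G q z ∂μ) := integral_congr_ae (Eventually.of_forall fun z => e2 z)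

end main

/-- the energies cut off at `c` -/
def VFR_cl (c E : ℝ) : ℝ := max (-c) (min c E)

theorem VFR_cl_cont (c : ℝ) : Continuous (VFR_cl c) := continuous_const.max (continuous_const.min continuous_id)

theorem VFR_cl_mem {c : ℝ} (hc : 0 ≤ c) (E : ℝ) : VFR_cl c E ∈ Icc (-c) c :=
  ⟨le_max_left _ _, max_le (by linarith) (min_le_left _ _)⟩

theorem VFR_cl_eq {c E : ℝ} (h : E ∈ Icc (-c) c) : VFR_cl c E = E := by
  unfold VFR_cl
  rw [min_eq_right h.2, max_eq_right h.1]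

theorem VFR_proof (hVCD : VCD_stmt) (hVDM : VDM_stmt) (hHFA : HFA_stmt) : VFR_stmt := by
  intro Γ F δ B D K η m R t f hD hO hδ hη hη1 hm hRη hR14 hR hfa
  obtain ⟨-, -, -, -, -, -, hcd2, hcdc, -⟩ := hVCD
  have hRpos : 0 < R := by linarith
  have hc0 : 0 ≤ 2 * R ^ (-(1 / 4) : ℝ) := mul_nonneg (by norm_num) (Real.rpow_nonneg hRpos.le _)
  set c : ℝ := 2 * R ^ (-(1 / 4) : ℝ) with hc
  have hWi : Wi 2 R = Icc (-c) c := rfl
  have hGW8 : ∀ p ∈ GW 2 R, |p.2| ≤ 1 / 8 := by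
    intro p hp
    have h1 : p.2 ∈ Icc (-c) c := hp.2
    rw [abs_le]
    constructor
    · linarith [h1.1]
    · linarith [h1.2]
  -- continuity
  have hcont : ContinuousOn (fun x : (SL(2, ℝ) × ℝ) × ℍ => pF D t f x.1 x.2) {x | |x.1.2| ≤ 1 / 8} := by
    have h1 : ContinuousOn (fun x : (SL(2, ℝ) × ℝ) × ℍ => D.fl x.1.2 t x.1.1) {x | |x.1.2| ≤ 1 / 8} := by
      have h2 : ContinuousOn (fun x : (SL(2, ℝ) × ℝ) × ℍ => ((x.1.2, t, x.1.1) : ℝ × ℝ × SL(2, ℝ))) {x | |x.1.2| ≤ 1 / 8} :=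
        (continuous_fst.snd.prodMk (continuous_const.prodMk continuous_fst.fst)).continuousOn
      exact hO.cfl.comp h2 (fun x hx => hx)
    have h3 : ContinuousOn (fun x : (SL(2, ℝ) × ℝ) × ℍ => cd ((D.fl x.1.2 t x.1.1)⁻¹ • x.2)) {x | |x.1.2| ≤ 1 / 8} :=
      hcdc.comp_continuousOn (h1.inv.smul continuous_snd.continuousOn)
    have h4 : ContinuousOn (fun x : (SL(2, ℝ) × ℝ) × ℍ => ((x.1, cd ((D.fl x.1.2 t x.1.1)⁻¹ • x.2)) : (SL(2, ℝ) × ℝ) × ℂ)) {x | |x.1.2| ≤ 1 / 8} :=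
      continuous_fst.continuousOn.prodMk h3
    exact hfa.cont.comp h4 (fun x hx => hx)
  -- bounds
  have hbd : ∀ p ∈ GW 2 R, ∀ z, ‖pF D t f p z‖ ≤ m ∧ (pF D t f p z ≠ 0 → dist (D.fl p.2 t p.1 • I : ℍ) z ≤ 1 ∧ dist (p.1 • I : ℍ) z ≤ 6 / 5 * |t| + 1) := by
    intro p hp z
    obtain ⟨A, -, hA1, hA2, hA3⟩ := hfa.pk p hp
    have h1 : pF D t f p z = Complex.exp (((R * rho D.U p.2 (D.fl p.2 t p.1) * (cd ((D.fl p.2 t p.1)⁻¹ • z)).re : ℝ) : ℂ) * Complex.I) * A (cd ((D.fl p.2 t p.1)⁻¹ • z)) := hA3 _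
    constructor
    · rw [h1, norm_mul, Complex.norm_exp_ofReal_mul_I, one_mul]
      have h2 := hA2 0 (Nat.zero_le _) (cd ((D.fl p.2 t p.1)⁻¹ • z))
      rwa [norm_iteratedFDeriv_zero, pow_zero, mul_one] at h2
    · intro h0
      rw [h1] at h0
      have h2 := hA1 _ (right_ne_zero_of_mul h0)
      have h3 := hcd2 ((D.fl p.2 t p.1)⁻¹ • z) (by linarith)
      have h4 : dist (D.fl p.2 t p.1 • I : ℍ) z = dist ((D.fl p.2 t p.1)⁻¹ • z) I := by
        rw [dist_comm, ← dist_smul (D.fl p.2 t p.1) ((D.fl p.2 t p.1)⁻¹ • z) I, smul_inv_smul]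
      have h5 : dist (D.fl p.2 t p.1 • I : ℍ) z ≤ 1 := by
        rw [h4]
        linarith
      refine ⟨h5, ?_⟩
      have h6 := (hHFA Γ δ B D hO hδ p.2 0 t (hGW8 p hp) p.1).2.2.2
      have h7 := dist_triangle (p.1 • I : ℍ) (D.fl p.2 t p.1 • I : ℍ) z
      rw [dist_comm (p.1 • I : ℍ) (D.fl p.2 t p.1 • I : ℍ)] at h7
      linarith
  -- invariance
  have hinv : ∀ (γ : Γ) (p : SL(2, ℝ) × ℝ) (z : ℍ), |p.2| ≤ 1 / 8 → pF D t f ((γ : SL(2, ℝ)) * p.1, p.2) (γ • z) = pF D t f p z := by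
    intro γ p z hp
    have h1 : D.fl p.2 t ((γ : SL(2, ℝ)) * p.1) = (γ : SL(2, ℝ)) * D.fl p.2 t p.1 := (hHFA Γ δ B D hO hδ p.2 0 t hp p.1).2.1 γ
    show f ((γ : SL(2, ℝ)) * p.1, p.2) (cd ((D.fl p.2 t ((γ : SL(2, ℝ)) * p.1))⁻¹ • (γ • z))) = f p (cd ((D.fl p.2 t p.1)⁻¹ • z))
    have h2 : ((γ : SL(2, ℝ)) * D.fl p.2 t p.1)⁻¹ • (γ • z) = (D.fl p.2 t p.1)⁻¹ • z := by
      have h3 : (γ • z : ℍ) = (γ : SL(2, ℝ)) • z := rfl
      rw [h3, mul_inv_rev, mul_smul, inv_smul_smul]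
    rw [h1, h2, hfa.inv]
  -- the family cut off in the energy
  let G : SL(2, ℝ) × ℝ → ℍ → ℂ := fun p z => pF D t f (p.1, VFR_cl c p.2) z
  have hGdef : ∀ p z, G p z = pF D t f (p.1, VFR_cl c p.2) z := fun _ _ => rfl
  have hmem : ∀ p : SL(2, ℝ) × ℝ, ((p.1, VFR_cl c p.2) : SL(2, ℝ) × ℝ) ∈ GW 2 R := fun p => ⟨trivial, VFR_cl_mem hc0 p.2⟩
  have hGeq : ∀ p ∈ GW 2 R, ∀ z, G p z = pF D t f p z := by
    intro p hp z
    rw [hGdef, VFR_cl_eq (c := c) hp.2]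
  have hG : VFR_G Γ m (6 / 5 * |t| + 1) G := by
    refine ⟨?_, fun p z => (hbd _ (hmem p) z).1, fun p z h => ((hbd _ (hmem p) z).2 h).2, fun γ p z => ?_⟩
    · have h1 : Continuous fun x : (SL(2, ℝ) × ℝ) × ℍ => (((x.1.1, VFR_cl c x.1.2), x.2) : (SL(2, ℝ) × ℝ) × ℍ) :=
        (continuous_fst.fst.prodMk ((VFR_cl_cont c).comp continuous_fst.snd)).prodMk continuous_snd
      exact hcont.comp_continuous h1 (fun x => hGW8 _ (hmem x.1))
    · exact hinv γ (p.1, VFR_cl c p.2) z (hGW8 _ (hmem p))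
  have hW : MeasurableSet (Wi 2 R) := measurableSet_Icc
  have hW1 : Wi 2 R ⊆ Icc (-1) 1 := by
    rw [hWi]
    exact Icc_subset_Icc (by linarith) (by linarith)
  haveI : SecondCountableTopology SL(2, ℝ) := A_GLC.2.1
  have hGWm : MeasurableSet (GW 2 R) := MeasurableSet.univ.prod hW
  have haF : ∀ φ : ℍ → ℂ, aF D R t f φ = (GW 2 R).indicator fun p => ∫ z : ℍ, φ z * conj (G p z) := by
    intro φ
    unfold aF
    refine Set.indicator_congr fun p hp => ?_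
    refine integral_congr_ae (Eventually.of_forall fun z => ?_)
    show φ z * conj (pF D t f p z) = φ z * conj (G p z)
    rw [hGeq p hp z]
  have hsF : ∀ v : SL(2, ℝ) × ℝ → ℂ, sF D R t f v = fun z => ∫ q in univ ×ˢ Wi 2 R, v q * G q z ∂mP := by
    intro v
    funext z
    show ∫ q in univ ×ˢ Wi 2 R, v q * pF D t f q z ∂mP = _
    refine setIntegral_congr_fun hGWm fun q hq => ?_
    show v q * pF D t f q z = v q * G q z
    rw [hGeq q hq z]
  refine ⟨hcont, hbd, hinv, fun v hv => ?_, fun φ hφ => ?_, fun φ v hφ hv => ?_⟩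
  · rw [hsF]
    exact VFR_S hVDM hD hW hW1 hG hv
  · rw [haF]
    obtain ⟨h1, h2⟩ := VFR_Q hVDM hD hG hφ
    have hGWi : ∀ (γ : Γ) (p : SL(2, ℝ) × ℝ), (((γ : SL(2, ℝ)) * p.1, p.2) : SL(2, ℝ) × ℝ) ∈ GW 2 R ↔ p ∈ GW 2 R := fun γ p =>
      ⟨fun h => ⟨trivial, h.2⟩, fun h => ⟨trivial, h.2⟩⟩
    refine ⟨h2.meas.indicator hGWm, ?_, fun γ p => ?_, ?_⟩
    · obtain ⟨b, hb⟩ := h2.bdd
      refine ⟨b, fun p => ?_⟩
      by_cases hp : p ∈ GW 2 R
      · rw [Set.indicator_of_mem hp]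
        exact hb p
      · rw [Set.indicator_of_notMem hp, norm_zero]
        exact (norm_nonneg _).trans (hb p)
    · by_cases hp : p ∈ GW 2 R
      · rw [Set.indicator_of_mem hp, Set.indicator_of_mem ((hGWi γ p).2 hp)]
        exact h2.inv γ p
      · rw [Set.indicator_of_notMem hp, Set.indicator_of_notMem (fun h => hp ((hGWi γ p).1 h))]
    · obtain ⟨b, hb⟩ := h2.supp
      refine ⟨b, fun p hp h0 => hb p hp fun h3 => h0 ?_⟩
      by_cases hp2 : p ∈ GW 2 R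
      · rw [Set.indicator_of_mem hp2]
        exact h3
      · rw [Set.indicator_of_notMem hp2]
  · have h1 := VFR_adj hVDM hD hW hW1 hG hφ hv
    rw [hsF, ← h1]
    obtain ⟨-, -, -, -, hV⟩ := hVDM Γ F hD
    have hdG : MeasurableSet (dG F) := (hV (Wi 2 R) hW).2.2.2.2.1
    show ∫ p in dG F ×ˢ Wi 2 R, aF D R t f φ p * conj (v p) ∂mP = _
    refine setIntegral_congr_fun (hdG.prod hW) fun p hp => ?_
    show aF D R t f φ p * conj (v p) = (∫ z : ℍ, φ z * conj (G p z)) * conj (v p)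
    rw [haF, Set.indicator_of_mem (show p ∈ GW 2 R from ⟨trivial, hp.2⟩)]

end

end Pool.Agent.VQ
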