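import Pool.Agent.helper55.VQ.SpecD

/-!
# Project VQ (MP_07c750_an), block 2d, row ED3: the interface (I3)
-/

set_option autoImplicit false

open scoped MatrixGroups ContDiff Topology UpperHalfPlane ComplexConjugate ENNReal
open UpperHalfPlane MeasureTheory Filter Set

namespace Pool.Agent.VQ

open Pool.Agent.RS
open Pool.Agent.RPQ (CEig mean VV IsOp)

noncomputable section

/-- the window has finite measure -/
theorem ED3_fin (hVDM : VDM_stmt) {Γ : Subgroup SL(2, ℝ)} {F : Set ℍ} (hΓ : QU.SurfaceGroup Γ) (hF : QU.NiceDom Γ F) {c R : ℝ} (hc : c * R ^ (-(1 / 4) : ℝ) ≤ 1) :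
    mP (PW F c R) < ⊤ := by
  obtain ⟨-, -, -, -, hV⟩ := hVDM Γ F (Or.inl ⟨hΓ, hF⟩)
  obtain ⟨K, hK, hFK⟩ := hF.rel
  obtain ⟨b, hb⟩ := (Metric.isBounded_iff_subset_closedBall I).1 hK.isBounded
  have h1 := (hV (Wi c R) measurableSet_Icc).2.2.2.2.2 b
  refine lt_of_le_of_lt (measure_mono ?_) h1
  rintro p ⟨hp1, hp2⟩
  refine ⟨?_, hp2, ?_⟩
  · exact Metric.mem_closedBall.1 (hb (hFK hp1))
  · have h3 : p.2 ∈ Icc (-(c * R ^ (-(1 / 4) : ℝ))) (c * R ^ (-(1 / 4) : ℝ)) := hp2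
    exact ⟨by linarith [h3.1], by linarith [h3.2]⟩

/-- `nP` as a lower integral -/
theorem ED3_nP {v : SL(2, ℝ) × ℝ → ℂ} {F : Set ℍ} {c R : ℝ} (hv : Measurable v) (hb : ∃ b : ℝ, ∀ p, ‖v p‖ ≤ b) (hfin : mP (PW F c R) < ⊤) :
    ∫⁻ p in PW F c R, ‖v p‖ₑ ^ 2 ∂mP = ENNReal.ofReal (nP F c R v) := by
  obtain ⟨b, hb⟩ := hb
  haveI : IsFiniteMeasure (mP.restrict (PW F c R)) := ⟨by rwa [Measure.restrict_apply_univ]⟩
  have hint : Integrable (fun p => ‖v p‖ ^ 2) (mP.restrict (PW F c R)) := by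
    refine Integrable.of_bound (hv.norm.pow_const 2).aestronglyMeasurable (b ^ 2) (Eventually.of_forall fun p => ?_)
    rw [Real.norm_of_nonneg (by positivity)]
    exact pow_le_pow_left₀ (norm_nonneg _) (hb p) 2
  unfold nP
  rw [ofReal_integral_eq_lintegral_ofReal hint (Eventually.of_forall fun p => by positivity)]
  refine lintegral_congr fun p => ?_
  rw [ENNReal.ofReal_pow (norm_nonneg _), ofReal_norm]

theorem ED3_proof (hEDM : EDM_stmt) (hEDW : EDW_stmt) (hEDZ : EDZ_stmt) (hVTN : VTN_stmt) (hVUM : VUM_stmt) (hVDM : VDM_stmt) : ED3_stmt := by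
  intro Γ ch hΓ hch
  obtain ⟨C1, hC1, h1⟩ := hEDM
  obtain ⟨C2, hC2, h2⟩ := hEDW
  obtain ⟨C3, hC3, h3⟩ := hVTN
  obtain ⟨C4, hC4, h4⟩ := hVUM
  refine ⟨1 / 10, C1 + C2 + C3 + C4, by norm_num, by linarith, fun B A hA => ?_⟩
  obtain ⟨R1, hR1, h1⟩ := h1 ch B A hch (Adm_mono hA hC1 (by linarith))
  obtain ⟨R2, hR2, h2⟩ := h2 ch B A hch (Adm_mono hA hC2 (by linarith))
  obtain ⟨R3, hR3, h3⟩ := h3 ch B A hch (Adm_mono hA hC3 (by linarith))
  obtain ⟨R4, hR4, h4⟩ := h4 ch B A hch (Adm_mono hA hC4 (by linarith))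
  refine ⟨1 / 100, R1 + R2 + R3 + R4 + 16, by norm_num, by linarith, fun R D F f F' μ φ hR hO hF hE => ?_⟩
  have hR16 : 16 ≤ R := by linarith
  have hRone : 1 ≤ R := by linarith
  have hDm : Dm Γ F := Or.inl ⟨hΓ, hF⟩
  obtain ⟨hFP, -, hW2, hW1, -⟩ := h2 R (1 / 10) Γ F D f F' μ φ (by linarith) hΓ hF hO le_rfl hE
  obtain ⟨hz1, hz2, hz3⟩ := hEDZ Γ F R hΓ hF hRone
  have hR4 : R ^ (-(1 / 4) : ℝ) ≤ 1 / 2 := by
    have e1 : R ^ (-(1 / 4) : ℝ) ≤ (16 : ℝ) ^ (-(1 / 4) : ℝ) := Real.rpow_le_rpow_of_nonpos (by norm_num) hR16 (by norm_num)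
    have e2 : (16 : ℝ) ^ (-(1 / 4) : ℝ) = 1 / 2 := by
      rw [show (16 : ℝ) = 2 ^ (4 : ℝ) by norm_num, ← Real.rpow_mul (by norm_num), show (4 : ℝ) * -(1 / 4) = -1 by norm_num, Real.rpow_neg_one]
      norm_num
    linarith
  have hn0 : 0 ≤ nn F φ := integral_nonneg fun z => by positivity
  refine ⟨?_, ?_, fun T hT Φ hΦ => ?_⟩
  · rw [hz1, ED3_nP hFP.meas hFP.bdd (ED3_fin hVDM hΓ hF (by linarith))]
    exact ENNReal.ofReal_le_ofReal hW2
  · rw [hz2, ED3_nP hFP.meas hFP.bdd (ED3_fin hVDM hΓ hF (by linarith))]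
    refine ENNReal.ofReal_le_ofReal (le_trans ?_ hW1)
    refine mul_le_mul_of_nonneg_right ?_ hn0
    have e1 : R ^ (-(1 / 4) : ℝ) ≤ R ^ (-(1 / 100) : ℝ) := Real.rpow_le_rpow_of_exponent_le hRone (by norm_num)
    linarith
  · obtain ⟨-, -, -, -, h45, -, -⟩ := h4 R (1 / 10) Γ F D (by linarith) hDm hO le_rfl
    obtain ⟨-, h32⟩ := h3 R (1 / 10) Γ F D (by linarith) hDm hO le_rfl
    obtain ⟨-, -, hKZ, -⟩ := h32 f (A.tu R) hE.sm.inv
    have hne : ∀ p q, KB D ch A R f p q ≠ 0 → q ∈ GW 2 R := by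
      intro p q h
      have e1 : ub D ch A R p q ≠ 0 := right_ne_zero_of_mul h
      exact (h45 A.m p q e1).2
    have e2 := (hz3 (KB D ch A R f) (QF D.U ch A.z R φ) hKZ hne hFP).2 T Φ hT hΦ
    have e3 := h1 R (1 / 10) Γ F D f F' μ φ (by linarith) hΓ hF hO le_rfl hE A.m le_rfl
    have e4 : nP F 2 R (fun p => Op (KB D ch A R f) (QF D.U ch A.z R φ) p - QF D.U ch A.z R φ p) =
        nP F 2 R (fun p => Op (usm D ch A R A.m) (QF D.U ch A.z R φ) p - Complex.exp (((thP D f R (A.m * A.sg R) p : ℝ) : ℂ) * Complex.I) * QF D.U ch A.z R φ p) := by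
      unfold nP
      refine integral_congr_ae (Eventually.of_forall fun p => ?_)
      have e5 : Op (KB D ch A R f) (QF D.U ch A.z R φ) p = Complex.exp (-(((thP D f R (A.m * A.sg R) p : ℝ) : ℂ) * Complex.I)) * Op (usm D ch A R A.m) (QF D.U ch A.z R φ) p := by
        unfold Op
        rw [← integral_const_mul]
        refine integral_congr_ae (Eventually.of_forall fun q => ?_)
        show Complex.exp (-(((thP D f R (A.m * A.sg R) p : ℝ) : ℂ) * Complex.I)) * usm D ch A R A.m p q * QF D.U ch A.z R φ q = _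
        rw [mul_assoc]
      have e6 : Op (KB D ch A R f) (QF D.U ch A.z R φ) p - QF D.U ch A.z R φ p = Complex.exp (-(((thP D f R (A.m * A.sg R) p : ℝ) : ℂ) * Complex.I)) *
          (Op (usm D ch A R A.m) (QF D.U ch A.z R φ) p - Complex.exp (((thP D f R (A.m * A.sg R) p : ℝ) : ℂ) * Complex.I) * QF D.U ch A.z R φ p) := by
        rw [e5, mul_sub, ← mul_assoc, ← Complex.exp_add, neg_add_cancel, Complex.exp_zero, one_mul]
      have e7 : ‖Complex.exp (-(((thP D f R (A.m * A.sg R) p : ℝ) : ℂ) * Complex.I))‖ = 1 := by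
        rw [← neg_mul, ← Complex.ofReal_neg, Complex.norm_exp_ofReal_mul_I]
      show ‖Op (KB D ch A R f) (QF D.U ch A.z R φ) p - QF D.U ch A.z R φ p‖ ^ 2 = _
      rw [e6, norm_mul, e7, one_mul]
    rw [e2, e4]
    refine e3.trans (mul_le_mul_of_nonneg_right ?_ hn0)
    exact Real.rpow_le_rpow_of_exponent_le hRone (by norm_num)

end

end Pool.Agent.VQ
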