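import Pool.Agent.helper11.VQ.Spec3c
import Pool.Agent.helper55.RPQ.LIP

/-!
# MP_07c750 (QUE), project VQ, block 3c/3d, row POT (potentials e^G)
-/

set_option autoImplicit false

open scoped MatrixGroups ContDiff Topology UpperHalfPlane ComplexConjugate ENNReal
open UpperHalfPlane MeasureTheory Filter Set

namespace Pool.Agent.VQ

open Pool.Agent.RS
open Pool.Agent.RPQ (CkB)

noncomputable section

/-- composition bound on open sets -/
theorem POT_comp {E F G : Type*} [NormedAddCommGroup E] [NormedSpace ℝ E] [NormedAddCommGroup F] [NormedSpace ℝ F]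
    [NormedAddCommGroup G] [NormedSpace ℝ G] {g : F → G} {f : E → F} {n : ℕ} {s : Set E} {t : Set F} (hs : IsOpen s) (ht : IsOpen t)
    (hg : ContDiffOn ℝ ∞ g t) (hf : ContDiffOn ℝ ∞ f s) (hst : MapsTo f s t) {x : E} (hx : x ∈ s) {C D : ℝ}
    (hC : ∀ i, i ≤ n → ‖iteratedFDeriv ℝ i g (f x)‖ ≤ C) (hD : ∀ i, 1 ≤ i → i ≤ n → ‖iteratedFDeriv ℝ i f x‖ ≤ D ^ i) :
    ‖iteratedFDeriv ℝ n (fun y => g (f y)) x‖ ≤ n.factorial * C * D ^ n := by
  have h1 : ‖iteratedFDerivWithin ℝ n (g ∘ f) s x‖ ≤ n.factorial * C * D ^ n := by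
    refine norm_iteratedFDerivWithin_comp_le hg hf (by exact_mod_cast le_top) ht.uniqueDiffOn hs.uniqueDiffOn hst hx (fun i hi => ?_) fun i hi hi' => ?_
    · rw [iteratedFDerivWithin_of_isOpen i ht (hst hx)]
      exact hC i hi
    · rw [iteratedFDerivWithin_of_isOpen i hs hx]
      exact hD i hi hi'
  rwa [iteratedFDerivWithin_of_isOpen n hs hx] at h1

/-- the Moebius map -/
def POT_m (w : ℂ) : ℂ := Complex.I * (2 + w) / (2 - w)

theorem POT_ne {w : ℂ} (hw : ‖w‖ < 2) : (2 : ℂ) - w ≠ 0 := by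
  intro h
  have h1 : w = 2 := by linear_combination -h
  rw [h1] at hw
  norm_num at hw

theorem POT_im (w : ℂ) : (POT_m w).im = (4 - ‖w‖ ^ 2) / ‖(2 : ℂ) - w‖ ^ 2 := by
  have h1 : ‖w‖ ^ 2 = w.re ^ 2 + w.im ^ 2 := by
    rw [← Complex.normSq_eq_norm_sq, Complex.normSq_apply]
    ring
  rw [← Complex.normSq_eq_norm_sq (2 - w)]
  unfold POT_m
  rw [Complex.div_im, h1]
  simp only [Complex.mul_im, Complex.mul_re, Complex.I_re, Complex.I_im, Complex.add_re, Complex.add_im, Complex.sub_re, Complex.sub_im, Complex.re_ofNat, Complex.im_ofNat]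
  rw [← sub_div]
  ring

theorem POT_im_pos {w : ℂ} (hw : ‖w‖ < 2) : 0 < (POT_m w).im := by
  rw [POT_im]
  have h1 : 0 < ‖(2 : ℂ) - w‖ := norm_pos_iff.2 (POT_ne hw)
  have h2 : 0 < 4 - ‖w‖ ^ 2 := by nlinarith [norm_nonneg w]
  positivity

theorem POT_im_ge {w : ℂ} (hw : ‖w‖ ≤ 1) : 1 / 3 ≤ (POT_m w).im := by
  rw [POT_im]
  have h1 : 0 < ‖(2 : ℂ) - w‖ := norm_pos_iff.2 (POT_ne (by linarith))
  have h2 : ‖(2 : ℂ) - w‖ ≤ 3 := by
    have h3 := norm_sub_le (2 : ℂ) w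
    have h4 : ‖(2 : ℂ)‖ = 2 := by norm_num
    linarith
  rw [le_div_iff₀ (by positivity)]
  have h3 : ‖(2 : ℂ) - w‖ ^ 2 ≤ 9 := by nlinarith
  have h4 : ‖w‖ ^ 2 ≤ 1 := by nlinarith [norm_nonneg w]
  linarith

theorem POT_smooth : ContDiffOn ℝ ∞ POT_m (Metric.ball 0 2) := by
  intro w hw
  have h1 : ‖w‖ < 2 := by simpa using hw
  have h2 : ContDiffAt ℂ ∞ (fun w : ℂ => Complex.I * (2 + w) / (2 - w)) w :=
    ContDiffAt.fun_div (contDiffAt_const.mul (contDiffAt_const.add contDiffAt_id)) (contDiffAt_const.sub contDiffAt_id) (POT_ne h1)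
  exact (h2.restrict_scalars ℝ).contDiffWithinAt

/-- all derivatives of the Moebius map are bounded on the closed unit disc -/
theorem POT_M : ∃ M : ℕ → ℝ, ∀ i, 0 ≤ M i ∧ ∀ v : ℂ, ‖v‖ ≤ 1 → ‖iteratedFDeriv ℝ i POT_m v‖ ≤ M i := by
  have h : ∀ i : ℕ, ∃ M : ℝ, 0 ≤ M ∧ ∀ v : ℂ, ‖v‖ ≤ 1 → ‖iteratedFDeriv ℝ i POT_m v‖ ≤ M := by
    intro i
    have h1 : ContinuousOn (iteratedFDerivWithin ℝ i POT_m (Metric.ball 0 2)) (Metric.ball 0 2) :=
      POT_smooth.continuousOn_iteratedFDerivWithin (by exact_mod_cast le_top) Metric.isOpen_ball.uniqueDiffOn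
    have h2 : ContinuousOn (iteratedFDeriv ℝ i POT_m) (Metric.ball 0 2) :=
      h1.congr fun v hv => (iteratedFDerivWithin_of_isOpen i Metric.isOpen_ball hv).symm
    have h3 : ContinuousOn (iteratedFDeriv ℝ i POT_m) (Metric.closedBall 0 1) :=
      h2.mono (Metric.closedBall_subset_ball (by norm_num))
    obtain ⟨M, hM⟩ := (isCompact_closedBall (0 : ℂ) 1).exists_bound_of_continuousOn h3
    exact ⟨max M 0, le_max_right _ _, fun v hv => (hM v (by simpa using hv)).trans (le_max_left _ _)⟩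
  choose M hM using h
  exact ⟨M, hM⟩

/-- subtracting a constant and scaling -/
theorem POT_aff {E F : Type*} [NormedAddCommGroup E] [NormedSpace ℝ E] [NormedAddCommGroup F] [NormedSpace ℝ F] (f : E → F) (c : F) (a : ℝ) {i : ℕ} (hi : i ≠ 0) {x : E}
    (hf : ContDiffAt ℝ ∞ f x) : ‖iteratedFDeriv ℝ i (fun y => a • (f y - c)) x‖ = |a| * ‖iteratedFDeriv ℝ i f x‖ := by
  have h1 : ContDiffAt ℝ i f x := hf.of_le (by exact_mod_cast le_top)
  have h2 : ContDiffAt ℝ i (fun y => f y - c) x := h1.sub contDiffAt_const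
  have h3 : iteratedFDeriv ℝ i (fun y => a • (f y - c)) x = a • iteratedFDeriv ℝ i (fun y => f y - c) x := iteratedFDeriv_const_smul_apply' h2
  have h4 : iteratedFDeriv ℝ i (fun y => f y - c) x = iteratedFDeriv ℝ i f x - iteratedFDeriv ℝ i (fun _ : E => c) x :=
    iteratedFDeriv_sub_apply h1 contDiffAt_const
  rw [h3, h4, iteratedFDeriv_const_of_ne hi, Pi.zero_apply, sub_zero, norm_smul, Real.norm_eq_abs]

theorem POT_exp (i : ℕ) (x : ℝ) : ‖iteratedFDeriv ℝ i Real.exp x‖ = Real.exp x := by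
  rw [norm_iteratedFDeriv_eq_norm_iteratedDeriv, iteratedDeriv_eq_iterate, Real.iter_deriv_exp, Real.norm_eq_abs, abs_of_pos (Real.exp_pos x)]

/-- the frame of a point -/
theorem POT_frame (g : SL(2, ℝ)) (G : ℍ → ℝ) {v w : ℂ} (hv : ‖v‖ < 2) (hw : ‖w‖ < 2) :
    G (g • cdi w) = QU.onC (fun z => G ((g * (cdi v).toSL2R) • z)) (((POT_m v).im)⁻¹ • (POT_m w - ((POT_m v).re : ℂ))) := by
  have hyv := POT_im_pos hv
  have hyw := POT_im_pos hw
  have hcv : ((cdi v : ℍ) : ℂ) = POT_m v := by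
    show ((ofComplex (POT_m v) : ℍ) : ℂ) = _
    rw [ofComplex_apply_of_im_pos hyv]
  have hcw : ((cdi w : ℍ) : ℂ) = POT_m w := by
    show ((ofComplex (POT_m w) : ℍ) : ℂ) = _
    rw [ofComplex_apply_of_im_pos hyw]
  have h1 : 0 < ((((POT_m v).im)⁻¹ • (POT_m w - ((POT_m v).re : ℂ)) : ℂ)).im := by
    simp only [Complex.real_smul, Complex.mul_im, Complex.ofReal_re, Complex.ofReal_im, Complex.sub_im, Complex.sub_re]
    simp only [zero_mul, sub_zero, add_zero]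
    positivity
  unfold QU.onC
  set u : ℍ := ofComplex (((POT_m v).im)⁻¹ • (POT_m w - ((POT_m v).re : ℂ))) with hu
  have hcu : (u : ℂ) = ((POT_m v).im)⁻¹ • (POT_m w - ((POT_m v).re : ℂ)) := by
    rw [hu, ofComplex_apply_of_im_pos h1]
  have h2 : (cdi v).toSL2R • u = cdi w := by
    apply UpperHalfPlane.ext
    rw [hcw, coe_specialLinearGroup_apply]
    have him : (cdi v).im = (POT_m v).im := by rw [← coe_im, hcv]
    have hre : (cdi v).re = (POT_m v).re := by rw [← coe_re, hcv]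
    simp only [coe_toSL2R, him, hre]
    simp only [Matrix.of_apply, Matrix.cons_val', Matrix.cons_val_zero, Matrix.cons_val_one, Matrix.cons_val_fin_one]
    have hs : Real.sqrt (POT_m v).im ≠ 0 := (Real.sqrt_pos.2 hyv).ne'
    have hsq : ((Real.sqrt (POT_m v).im : ℝ) : ℂ) ^ 2 = (((POT_m v).im : ℝ) : ℂ) := by
      rw [← Complex.ofReal_pow, Real.sq_sqrt hyv.le]
    have hsc : ((Real.sqrt (POT_m v).im : ℝ) : ℂ) ≠ 0 := by exact_mod_cast hs
    have hic : (((POT_m v).im : ℝ) : ℂ) ≠ 0 := by exact_mod_cast hyv.ne'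
    rw [hcu, Complex.real_smul]
    simp only [Algebra.algebraMap_self, RingHom.id_apply, Complex.ofReal_div, Complex.ofReal_one, Complex.ofReal_zero, Complex.ofReal_inv]
    field_simp
    rw [hsq]
    ring_nf
    rw [mul_comm (((POT_m v).im : ℝ) : ℂ) _, mul_assoc, mul_inv_cancel₀ hic, mul_one]
  show G (g • cdi w) = G ((g * (cdi v).toSL2R) • u)
  rw [mul_smul, h2]

theorem POT_cd (G : ℍ → ℝ) (hG : QU.CD ∞ G) (g : SL(2, ℝ)) : ContDiffOn ℝ ∞ (fun w => G (g • cdi w)) (Metric.ball 0 2) := by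
  have h1 : QU.CD ∞ (fun z => G (g • z)) := Pool.Agent.RPQ.LIP_cd G g ∞ hG
  have h2 : ContDiffOn ℝ ∞ ((QU.onC fun z => G (g • z)) ∘ POT_m) (Metric.ball 0 2) :=
    ContDiffOn.comp h1 POT_smooth (fun w hw => POT_im_pos (by simpa using hw))
  exact h2

/-- the derivatives of `w ↦ G (g • cdi w)` -/
theorem POT_K {M : ℕ → ℝ} (hM : ∀ i, 0 ≤ M i ∧ ∀ v : ℂ, ‖v‖ ≤ 1 → ‖iteratedFDeriv ℝ i POT_m v‖ ≤ M i) (G : ℍ → ℝ) (hG : QU.CD ∞ G) (n : ℕ) (C : ℝ)
    (hC : ∀ i, i ≤ n → CkB i G C) (g : SL(2, ℝ)) {v : ℂ} (hv : ‖v‖ ≤ 1) :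
    ‖iteratedFDeriv ℝ n (fun w => G (g • cdi w)) v‖ ≤ n.factorial * C * (1 + ∑ i ∈ Finset.range (n + 1), 3 * M i) ^ n := by
  have hv2 : ‖v‖ < 2 := by linarith
  have hvb : v ∈ Metric.ball (0 : ℂ) 2 := by simpa using hv2
  set h : SL(2, ℝ) := g * (cdi v).toSL2R with hh
  set f : ℂ → ℂ := fun w => ((POT_m v).im)⁻¹ • (POT_m w - ((POT_m v).re : ℂ)) with hf
  have hy := POT_im_ge hv
  have hypos : 0 < (POT_m v).im := by linarith
  have e1 : EqOn (fun w => G (g • cdi w)) (fun w => QU.onC (fun z => G (h • z)) (f w)) (Metric.ball 0 2) := fun w hw =>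
    POT_frame g G hv2 (by simpa using hw)
  have e2 : (fun w => G (g • cdi w)) =ᶠ[𝓝 v] fun w => QU.onC (fun z => G (h • z)) (f w) :=
    Filter.eventuallyEq_of_mem (Metric.isOpen_ball.mem_nhds hvb) e1
  rw [Filter.EventuallyEq.eq_of_nhds (e2.iteratedFDeriv ℝ n)]
  have hfv : f v = Complex.I := by
    have h1 : POT_m v - ((POT_m v).re : ℂ) = (POT_m v).im * Complex.I := by
      nth_rewrite 1 [← Complex.re_add_im (POT_m v)]
      ring
    rw [hf]
    show ((POT_m v).im)⁻¹ • (POT_m v - ((POT_m v).re : ℂ)) = Complex.I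
    rw [h1, Complex.real_smul, Complex.ofReal_inv, ← mul_assoc, inv_mul_cancel₀ (by exact_mod_cast hypos.ne'), one_mul]
  have hfs : ContDiffOn ℝ ∞ f (Metric.ball 0 2) := (POT_smooth.sub contDiffOn_const).const_smul _
  have hmaps : MapsTo f (Metric.ball 0 2) {w : ℂ | 0 < w.im} := by
    intro w hw
    have hw2 : ‖w‖ < 2 := by simpa using hw
    have hyw := POT_im_pos hw2
    show 0 < ((((POT_m v).im)⁻¹ • (POT_m w - ((POT_m v).re : ℂ)) : ℂ)).im
    simp only [Complex.real_smul, Complex.mul_im, Complex.ofReal_re, Complex.ofReal_im, Complex.sub_im, Complex.sub_re]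
    simp only [zero_mul, sub_zero, add_zero]
    positivity
  refine POT_comp Metric.isOpen_ball Pool.Agent.RPQ.LIP_open (Pool.Agent.RPQ.LIP_cd G h ∞ hG) hfs hmaps hvb (fun i hi => ?_) fun i hi hi' => ?_
  · rw [hfv]
    exact hC i hi h
  · have h1 : ‖iteratedFDeriv ℝ i f v‖ = |((POT_m v).im)⁻¹| * ‖iteratedFDeriv ℝ i POT_m v‖ :=
      POT_aff POT_m _ _ (by omega) (POT_smooth.contDiffAt (Metric.isOpen_ball.mem_nhds hvb))
    rw [h1, abs_of_pos (inv_pos.2 hypos)]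
    have h2 : ((POT_m v).im)⁻¹ ≤ 3 := by
      rw [inv_le_comm₀ hypos (by norm_num)]
      linarith
    have h3 : ((POT_m v).im)⁻¹ * ‖iteratedFDeriv ℝ i POT_m v‖ ≤ 3 * M i :=
      mul_le_mul h2 ((hM i).2 v hv) (norm_nonneg _) (by norm_num)
    have h4 : 3 * M i ≤ ∑ i ∈ Finset.range (n + 1), 3 * M i :=
      Finset.single_le_sum (f := fun i => 3 * M i) (fun j _ => mul_nonneg (by norm_num) (hM j).1) (Finset.mem_range.2 (by omega))
    have h5 : 1 ≤ 1 + ∑ i ∈ Finset.range (n + 1), 3 * M i := by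
      have : 0 ≤ 3 * M i := mul_nonneg (by norm_num) (hM i).1
      linarith
    calc ((POT_m v).im)⁻¹ * ‖iteratedFDeriv ℝ i POT_m v‖ ≤ 1 + ∑ i ∈ Finset.range (n + 1), 3 * M i := by linarith
      _ ≤ (1 + ∑ i ∈ Finset.range (n + 1), 3 * M i) ^ i := le_self_pow₀ h5 (by omega)

theorem POT_proof : POT_stmt := by
  intro δ hδ
  obtain ⟨M, hM⟩ := POT_M
  set Dn : ℕ → ℝ := fun n => 1 + ∑ i ∈ Finset.range (n + 1), 3 * M i with hDn
  have hDn1 : ∀ n, 1 ≤ Dn n := by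
    intro n
    have : 0 ≤ ∑ i ∈ Finset.range (n + 1), 3 * M i := Finset.sum_nonneg fun i _ => mul_nonneg (by norm_num) (hM i).1
    show 1 ≤ 1 + _
    linarith
  set A : ℝ := ∑ n ∈ Finset.range 4, 6 * Dn n ^ n with hA
  have hA0 : ∀ n ≤ 3, 6 * Dn n ^ n ≤ A := fun n hn =>
    Finset.single_le_sum (f := fun n => 6 * Dn n ^ n) (fun j _ => mul_nonneg (by norm_num) (pow_nonneg (by linarith [hDn1 j]) _)) (Finset.mem_range.2 (by omega))
  have hA1 : 1 ≤ A := by
    have h1 := hA0 0 (by norm_num)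
    rw [pow_zero] at h1
    linarith
  set θ : ℝ := min 1 (δ / 100) with hθ
  have hθ0 : 0 < θ := lt_min one_pos (by positivity)
  have hθ1 : θ ≤ 1 := min_le_left _ _
  have hθδ : 100 * θ ≤ δ := by
    have := min_le_right 1 (δ / 100)
    linarith
  have hθ3 : θ ^ 3 ≤ θ := pow_le_of_le_one hθ0.le hθ1 (by norm_num)
  refine ⟨θ ^ 3 / A, by positivity, ?_, fun b => ?_⟩
  · rw [div_le_one (by linarith)]
    linarith
  set η : ℝ := θ ^ 3 / A with hη
  have hη0 : 0 < η := by positivity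
  have hηA : η * A = θ ^ 3 := by
    rw [hη]
    field_simp
  have hηθ : η ≤ θ ^ 3 := by
    rw [← hηA]
    nlinarith
  set E : ℕ → ℝ := fun n => n.factorial * (∑ j ∈ Finset.range (n + 1), |b j|) * Dn n ^ n with hE
  have hE0 : ∀ n, 0 ≤ E n := fun n => by
    have h1 : 0 ≤ ∑ j ∈ Finset.range (n + 1), |b j| := Finset.sum_nonneg fun j _ => abs_nonneg _
    have h2 : 0 ≤ Dn n ^ n := pow_nonneg (by linarith [hDn1 n]) _
    show 0 ≤ n.factorial * (∑ j ∈ Finset.range (n + 1), |b j|) * Dn n ^ n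
    positivity
  refine ⟨fun n => n.factorial * 3 * (1 + ∑ i ∈ Finset.range (n + 1), E i) ^ n, fun Γ G hG hinv h3 hb => ?_⟩
  -- bounds for the exponent
  have hK3 : ∀ (g : SL(2, ℝ)) (v : ℂ), ‖v‖ ≤ 1 → ∀ n ≤ 3, ‖iteratedFDeriv ℝ n (fun w => G (g • cdi w)) v‖ ≤ θ ^ 3 := by
    intro g v hv n hn
    have h1 := POT_K hM G hG n η (fun i hi => h3 i (by omega)) g hv
    have h2 : (n.factorial : ℝ) ≤ 6 := by
      have : n.factorial ≤ (3 : ℕ).factorial := Nat.factorial_le hn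
      exact_mod_cast this
    calc _ ≤ (n.factorial : ℝ) * η * Dn n ^ n := h1
      _ ≤ 6 * η * Dn n ^ n := mul_le_mul_of_nonneg_right (mul_le_mul_of_nonneg_right h2 hη0.le) (pow_nonneg (by linarith [hDn1 n]) _)
      _ = η * (6 * Dn n ^ n) := by ring
      _ ≤ η * A := mul_le_mul_of_nonneg_left (hA0 n hn) hη0.le
      _ = θ ^ 3 := hηA
  have hKn : ∀ (g : SL(2, ℝ)) (v : ℂ), ‖v‖ ≤ 1 → ∀ n, ‖iteratedFDeriv ℝ n (fun w => G (g • cdi w)) v‖ ≤ E n := by
    intro g v hv n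
    refine POT_K hM G hG n (∑ j ∈ Finset.range (n + 1), |b j|) (fun i hi g' => (hb i g').trans ?_) g hv
    exact (le_abs_self _).trans (Finset.single_le_sum (f := fun j => |b j|) (fun j _ => abs_nonneg _) (Finset.mem_range.2 (by omega)))
  have hK0 : ∀ (g : SL(2, ℝ)) (v : ℂ), ‖v‖ ≤ 1 → |G (g • cdi v)| ≤ θ ^ 3 := by
    intro g v hv
    have h1 := hK3 g v hv 0 (by norm_num)
    rwa [norm_iteratedFDeriv_zero, Real.norm_eq_abs] at h1
  have hexp : ∀ (g : SL(2, ℝ)) (v : ℂ), ‖v‖ ≤ 1 → Real.exp (G (g • cdi v)) ≤ 3 := by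
    intro g v hv
    have h1 : G (g • cdi v) ≤ 1 := (le_abs_self _).trans ((hK0 g v hv).trans (hθ3.trans hθ1))
    have h2 := Real.exp_le_exp.2 h1
    have h4 := Real.exp_one_lt_d9
    linarith
  have hball : ∀ v : ℂ, ‖v‖ ≤ 1 → v ∈ Metric.ball (0 : ℂ) 2 := fun v hv => by
    simp only [Metric.mem_ball, dist_zero_right]
    linarith
  have hmain : ∀ (g : SL(2, ℝ)) (v : ℂ), ‖v‖ ≤ 1 → ∀ (n : ℕ) (D : ℝ), (∀ i, 1 ≤ i → i ≤ n → ‖iteratedFDeriv ℝ i (fun w => G (g • cdi w)) v‖ ≤ D ^ i) →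
      ‖iteratedFDeriv ℝ n (Ug (fun z => Real.exp (G z)) g) v‖ ≤ n.factorial * 3 * D ^ n := by
    intro g v hv n D hD
    refine POT_comp (g := Real.exp) (f := fun w => G (g • cdi w)) Metric.isOpen_ball isOpen_univ Real.contDiff_exp.contDiffOn (POT_cd G hG g) (mapsTo_univ _ _) (hball v hv) (fun i _ => ?_) hD
    rw [POT_exp]
    exact hexp g v hv
  refine ⟨?_, ?_, ?_, ?_⟩
  · exact ContDiffOn.exp hG
  · exact ⟨Real.continuous_exp.comp hinv.1, fun γ z => by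
      show Real.exp (G (γ • z)) = Real.exp (G z)
      rw [hinv.2]⟩
  · intro g v hv n hn
    rcases Nat.eq_zero_or_pos n with h0 | hpos
    · subst h0
      rw [norm_iteratedFDeriv_zero, Real.norm_eq_abs]
      show |Real.exp (G (g • cdi v)) - 1| ≤ δ
      have h1 := hK0 g v hv
      have h2 := Real.abs_exp_sub_one_le (h1.trans (hθ3.trans hθ1))
      linarith
    · have h1 := hmain g v hv n θ fun i hi hi' => (hK3 g v hv i (by omega)).trans (pow_le_pow_of_le_one hθ0.le hθ1 (by omega))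
      have h2 : ContDiffAt ℝ n (Ug (fun z => Real.exp (G z)) g) v := by
        have h3 : ContDiffAt ℝ ∞ (fun w => Real.exp (G (g • cdi w))) v := ((POT_cd G hG g).contDiffAt (Metric.isOpen_ball.mem_nhds (hball v hv))).exp
        exact h3.of_le (by exact_mod_cast le_top)
      have h4 : iteratedFDeriv ℝ n (fun w => Ug (fun z => Real.exp (G z)) g w - 1) v = iteratedFDeriv ℝ n (Ug (fun z => Real.exp (G z)) g) v - iteratedFDeriv ℝ n (fun _ : ℂ => (1 : ℝ)) v :=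
        iteratedFDeriv_sub_apply h2 contDiffAt_const
      rw [h4, iteratedFDeriv_const_of_ne (by omega), Pi.zero_apply, sub_zero]
      have h5 : (n.factorial : ℝ) ≤ 6 := by
        have : n.factorial ≤ (3 : ℕ).factorial := Nat.factorial_le hn
        exact_mod_cast this
      have h6 : θ ^ n ≤ θ := pow_le_of_le_one hθ0.le hθ1 (by omega)
      calc _ ≤ (n.factorial : ℝ) * 3 * θ ^ n := h1
        _ ≤ 6 * 3 * θ := mul_le_mul (by linarith) h6 (by positivity) (by norm_num)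
        _ ≤ δ := by linarith
  · intro g v hv n
    refine hmain g v hv n _ fun i hi hi' => (hKn g v hv i).trans ?_
    have h4 : E i ≤ ∑ i ∈ Finset.range (n + 1), E i :=
      Finset.single_le_sum (f := fun i => E i) (fun j _ => hE0 j) (Finset.mem_range.2 (by omega))
    have h5 : 1 ≤ 1 + ∑ i ∈ Finset.range (n + 1), E i := by
      have := hE0 i
      linarith
    calc E i ≤ 1 + ∑ i ∈ Finset.range (n + 1), E i := by linarith
      _ ≤ (1 + ∑ i ∈ Finset.range (n + 1), E i) ^ i := le_self_pow₀ h5 (by omega)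

end

end Pool.Agent.VQ
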